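import Pool.Agent.L0h13.EF.Stm

/-!
# Module DPR of the project EF (helper13)
-/

set_option autoImplicit false

namespace Pool.Agent.L0h36.EF

open Polynomial Pool.Agent.L0h13.SD Pool.Agent.L0h13.EF

universe u

lemma sum_lt (K : Type u) [Field K] (m n : ℕ) (c : Fin (m + n)) (hc : (c : ℕ) < m) :
    (∑ a : Fin (m + n), if a < c then (-1 : K) ^ par m a else 0) = (c : ℕ) := by
  have h1 : (∑ a : Fin (m + n), if a < c then (-1 : K) ^ par m a else 0) =
      ∑ a : Fin (m + n), (fun x : ℕ => if x < (c : ℕ) then (1 : K) else 0) (a : ℕ) := by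
    refine Finset.sum_congr rfl fun a _ => ?_
    by_cases h : a < c
    · have h' : (a : ℕ) < c := h
      have hp : par m a = 0 := if_pos (h'.trans hc)
      simp [h, h', hp]
    · have h' : ¬ (a : ℕ) < c := h
      simp [h, h']
  rw [h1, ← Finset.sum_range (fun x : ℕ => if x < (c : ℕ) then (1 : K) else 0),
    ← Finset.sum_filter, Finset.sum_const]
  have h2 : (Finset.range (m + n)).filter (fun x => x < (c : ℕ)) = Finset.range (c : ℕ) := by
    ext x
    have := c.2
    simp only [Finset.mem_filter, Finset.mem_range]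
    omega
  rw [h2, Finset.card_range, nsmul_eq_mul, mul_one]

theorem t_DPR : S_DPR.{u} := by
  intro K _ m n
  set t : K := (m : K) - n with ht
  have h1 : (X - C t) ^ min m n =
      ∏ c : Fin (m + n), (fun x : ℕ => if m - min m n ≤ x ∧ x < m then X - C t else 1) (c : ℕ) := by
    rw [← Finset.prod_range (fun x : ℕ => if m - min m n ≤ x ∧ x < m then X - C t else 1),
      ← Finset.prod_filter, Finset.prod_const]
    have h2 : (Finset.range (m + n)).filter (fun x => m - min m n ≤ x ∧ x < m) =
        Finset.Ico (m - min m n) m := by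
      ext x
      simp only [Finset.mem_filter, Finset.mem_range, Finset.mem_Ico]
      omega
    rw [h2, Nat.card_Ico]
    congr 1
    omega
  rw [h1]
  unfold dpol
  refine Finset.prod_dvd_prod_of_dvd _ _ fun c _ => ?_
  by_cases hc : m - min m n ≤ (c : ℕ) ∧ (c : ℕ) < m
  · have hw : rectW m n c = n := if_pos hc.2
    have hp : par m c = 0 := if_pos hc.2
    rw [hw]
    simp only [hc, and_self, if_true]
    have hl : n + (c : ℕ) - m ∈ Finset.range n := by
      rw [Finset.mem_range]
      omega
    refine dvd_trans (dvd_of_eq ?_) (Finset.dvd_prod_of_mem _ hl)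
    rw [sum_lt K m n c hc.2, hp, pow_zero, one_mul, sub_eq_add_neg X, ← C_neg]
    congr 2
    rw [ht]
    have h3 : ((n + (c : ℕ) - m : ℕ) : K) = (n : K) + (c : ℕ) - m := by
      rw [Nat.cast_sub (by omega)]
      push_cast
      ring
    rw [h3]
    ring
  · simp only [hc, if_false]
    exact one_dvd _

end Pool.Agent.L0h36.EF
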